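import Pool.Agent.Y240.KF.Main

set_option autoImplicit false
set_option linter.unusedSectionVars false

/-!
# The frozen form
-/

namespace Pool.Agent.Y240.KF

open Finset Filter
open scoped Classical
open Pool.Agent.TH965 Pool.Agent.TH965.Emb Pool.Agent.TH965.Spread
open Pool.Agent.TH948.KK (ind ind_true ind_false ind_nonneg ind_le_one ind_mono ind_congr exs_congr)

/-- The sum in the frozen statement is `gnp`. -/
lemma frozen_sum (n : ℕ) (H : SimpleGraph (Fin n)) (p : ℝ) :
    (∑ G : SimpleGraph (Fin n),
      if (∃ f : Fin n → Fin n, Function.Injective f ∧ ∀ u v : Fin n, H.Adj u v → G.Adj (f u) (f v))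
      then p ^ G.edgeFinset.card * (1 - p) ^ (n.choose 2 - G.edgeFinset.card) else 0)
      = gnp n p (fun G => H.IsContained G) := by
  unfold gnp
  apply Finset.sum_congr rfl
  intro G _
  have h1 : G.edgeFinset.card = G.edgeSet.ncard := by
    rw [SimpleGraph.edgeFinset_card, ← Nat.card_eq_fintype_card, Nat.card_coe_set_eq]
  have h2 : (∃ f : Fin n → Fin n, Function.Injective f ∧
      ∀ u v : Fin n, H.Adj u v → G.Adj (f u) (f v)) ↔ H.IsContained G := by
    constructor
    · rintro ⟨f, hf, hf2⟩
      exact ⟨⟨⟨f, fun {a b} h => hf2 a b h⟩, hf⟩⟩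
    · rintro ⟨f⟩
      exact ⟨f, f.injective, fun u v h => f.toHom.map_adj h⟩
  rw [h1]
  by_cases h : H.IsContained G
  · rw [if_pos (h2.mpr h), if_pos h]
  · rw [if_neg (fun h' => h (h2.mp h')), if_neg h]

theorem frozen (hgv : StGv) (hmain : StMain) :
    ∀ (Δ : ℕ) (H : ∀ n : ℕ, SimpleGraph (Fin n)) (p : ℕ → ℝ),
      (∀ (n : ℕ) (v : Fin n), (H n).degree v ≤ Δ) →
      (∀ n : ℕ, 0 ≤ p n ∧ p n ≤ 1) →
      Filter.Tendsto
        (fun n : ℕ => p n * (n : ℝ) ^ ((2 : ℝ) / ((Δ : ℝ) + 1)) /
          (Real.log (n : ℝ)) ^ ((1 : ℝ) / (((Δ + 1).choose 2 : ℕ) : ℝ)))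
        Filter.atTop Filter.atTop →
      Filter.Tendsto
        (fun n : ℕ => ∑ G : SimpleGraph (Fin n),
          if (∃ f : Fin n → Fin n, Function.Injective f ∧
                ∀ u v : Fin n, (H n).Adj u v → G.Adj (f u) (f v))
          then p n ^ G.edgeFinset.card * (1 - p n) ^ (n.choose 2 - G.edgeFinset.card)
          else 0)
        Filter.atTop (nhds 1) := by
  intro Δ H p hdeg hp htend
  have heq : (fun n : ℕ => ∑ G : SimpleGraph (Fin n),
          if (∃ f : Fin n → Fin n, Function.Injective f ∧
                ∀ u v : Fin n, (H n).Adj u v → G.Adj (f u) (f v))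
          then p n ^ G.edgeFinset.card * (1 - p n) ^ (n.choose 2 - G.edgeFinset.card)
          else 0) = fun n : ℕ => gnp n (p n) (fun G => (H n).IsContained G) := by
    funext n
    exact frozen_sum n (H n) (p n)
  rw [heq]
  rcases Nat.eq_zero_or_pos Δ with h0 | h1
  · -- no edges
    subst h0
    have hbot : ∀ n, H n = ⊥ := by
      intro n
      ext a b
      constructor
      · intro hab
        have h1 := hdeg n a
        rw [Nat.le_zero, ← SimpleGraph.card_neighborFinset_eq_degree, Finset.card_eq_zero] at h1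
        have h2 : b ∈ (H n).neighborFinset a := by
          rw [SimpleGraph.mem_neighborFinset]; exact hab
        rw [h1] at h2
        exact absurd h2 (Finset.notMem_empty _)
      · intro hab
        exact absurd hab (by simp)
    have hone : ∀ n, gnp n (p n) (fun G => (H n).IsContained G) = 1 := by
      intro n
      rw [← hgv]
      unfold gv
      refine Eq.trans (exs_congr _ _ ?_) (exs_const _ (p n) 1)
      intro W _
      apply ind_true
      rw [hbot n]
      exact SimpleGraph.IsContained.of_le bot_le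
    simp only [hone]
    exact tendsto_const_nhds
  · exact hmain Δ H p h1 hdeg hp htend

end Pool.Agent.Y240.KF
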