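import Pool.Agent.TH879.MS.Tail

set_option autoImplicit false
set_option linter.unusedSectionVars false

/-!
# Spanning subgraphs of bounded degree in random graphs: definitions and target statements

`exs s p f` (`Pool.Agent.TH965.Spread`) is the expectation of `f W` for a random subset `W` of `s` that
contains each point independently with probability `p`.
-/

namespace Pool.Agent.Y240.KF

open Finset
open scoped Classical
open Pool.Agent.TH965 Pool.Agent.TH965.Emb Pool.Agent.TH965.Spread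
open Pool.Agent.TH948.KK (ind)

/-! ## Clique systems: `A i` is the edge set of the clique `i` -/

section abs

variable {E I : Type}

/-- The edges covered by the cliques in `T`. -/
noncomputable def cov (A : I → Finset E) (T : Finset I) : Finset E := T.biUnion A

/-- The sum over the cliques `i ≠ j` that share an edge with `j` of the probability that `i` is
present when the edges of `j` and of the cliques in `T` are present. -/
noncomputable def QQ (L : Finset I) (A : I → Finset E) (p : ℝ) (j : I) (T : Finset I) : ℝ :=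
  ∑ i ∈ L with i ≠ j ∧ (A i ∩ A j).Nonempty, p ^ (A i \ (A j ∪ cov A T)).card

/-- The sum that bounds the increase of `QQ` above `QQ _ _ _ _ B`. -/
noncomputable def SS (L : Finset I) (A : I → Finset E) (D : ℕ) (p π : ℝ) (j : I) (B : Finset I) : ℝ :=
  ∑ i ∈ L with i ≠ j ∧ (A i ∩ A j).Nonempty,
    ∑ S ∈ (L \ B).powerset with S.Nonempty ∧ S.card ≤ D ∧ ∀ a ∈ S, (A a ∩ A i).Nonempty,
      π ^ S.card * p ^ (A i \ (A j ∪ cov A (B ∪ S))).card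

end abs

/-- The chain bound. -/
def StChain : Prop := ∀ (E I : Type) (L : Finset I) (A : I → Finset E) (D : ℕ),
  (∀ i ∈ L, (A i).card ≤ D) → ∀ p π : ℝ, 0 ≤ p → p ≤ 1 → 0 ≤ π → π ≤ 1 →
  ∀ (j : I) (m : ℕ) (K ε : ℝ), 0 ≤ ε →
  (∀ B ⊆ L, B.card ≤ m * D → QQ L A p j B ≤ K) →
  (∀ B ⊆ L, B.card ≤ m * D → SS L A D p π j B ≤ ε) →
  exs L π (fun T => ind (¬ QQ L A p j T ≤ K + 1)) ≤ ε ^ m

/-- The coupling theorem. -/
def StCoup : Prop := ∀ (E I : Type) (s : Finset E) (L : Finset I) (A : I → Finset E),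
  (∀ i ∈ L, A i ⊆ s) → ∀ D K : ℕ, (∀ i ∈ L, (A i).card ≤ D) →
  ∀ p π : ℝ, 0 < p → p ≤ 1 → 0 ≤ π → π ≤ (1 / 2) ^ (K + 1) * p ^ D →
  ∀ (Φ : Finset E → ℝ) (Ψ : Finset I → ℝ), (∀ W, 0 ≤ Φ W) → (∀ T, Ψ T ≤ 1) →
  (∀ T ⊆ L, ∀ W ⊆ s, cov A T ⊆ W → Ψ T ≤ Φ W) →
  exs L π Ψ - exs L π (fun T => ind (¬ ∀ j ∈ L, QQ L A p j T ≤ K)) ≤ exs s p Φ

/-! ## The system of the transversal `r`-cliques of the complete `r`-partite graph on
`Fin r × Fin k`: the clique `i : Fin r → Fin k` has the vertices `(l, i l)` -/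

/-- The edges of the clique `i`. -/
noncomputable def Ed (r k : ℕ) (i : Fin r → Fin k) : Finset (Sym2 (Fin r × Fin k)) :=
  ((univ : Finset (Sym2 (Fin r))).filter (fun e => ¬ e.IsDiag)).image (Sym2.map (fun l => (l, i l)))

/-- The counting estimates. Here `p = g ^ 2` and `k * g ^ (r + 1)` is small. -/
def StCount : Prop := ∀ r m : ℕ, 2 ≤ r → ∃ (K : ℕ) (C : ℝ), 0 < C ∧ ∀ (k : ℕ) (g π : ℝ), 1 ≤ k →
  0 < g → g ≤ 1 → k * g ^ (r + 1) ≤ 1 → 0 ≤ π → π ≤ g ^ (r * (r - 1)) →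
  ∀ (j : Fin r → Fin k) (B : Finset (Fin r → Fin k)), B.card ≤ m →
    QQ univ (Ed r k) (g ^ 2) j B ≤ K ∧
    SS univ (Ed r k) (r.choose 2) (g ^ 2) π j B ≤ C * (k * g ^ (r + 1) + g ^ 2)

/-- Perfect matchings in the random `r`-partite `r`-uniform hypergraph with parts of size `k`. -/
def StSham : Prop := ∀ r k : ℕ, 1 ≤ r → 1 ≤ k → ∀ q d : ℝ, (Real.exp 1 / k) ^ (r - 1) ≤ q →
  65536 * (48 * q) < 1 → 0 ≤ d → d ≤ 1 →
  exs (univ : Finset (Fin r → Fin k)) d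
      (fun T => ind (¬ ∃ σ : Fin r → Equiv.Perm (Fin k), ∀ x : Fin k, (fun l => σ l x) ∈ T))
    ≤ Real.exp ((Real.log 3 / (65536 * (48 * q)))
        * (6 * 65536 * 48 * ((Nat.log 2 k + 1 : ℝ) * q) - d))

/-- The threshold of a partite `K_r`-factor. -/
def StFactor : Prop := ∀ r : ℕ, 2 ≤ r → ∃ C : ℝ, 0 < C ∧ ∀ δ : ℝ, 0 < δ → ∃ k0 : ℕ,
  ∀ k : ℕ, k0 ≤ k → ∀ p : ℝ, 0 ≤ p → p ≤ 1 → C * Real.log k ≤ p ^ (r.choose 2) * k ^ (r - 1) →
  1 - δ ≤ exs (eF (⊤ : SimpleGraph (Fin r × Fin k))) p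
    (fun W => ind (∃ σ : Fin r → Equiv.Perm (Fin k), ∀ x : Fin k, Ed r k (fun l => σ l x) ⊆ W))

/-! ## General random graphs -/

/-- The probability that the binomial random graph on `V` has the property `P`. -/
noncomputable def gv (V : Type) [Fintype V] (p : ℝ) (P : SimpleGraph V → Prop) : ℝ :=
  exs (eF (⊤ : SimpleGraph V)) p (fun W => ind (P (SimpleGraph.fromEdgeSet (W : Set (Sym2 V)))))

/-- `t` disjoint cliques with `r` vertices. -/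
def tK (t r : ℕ) : SimpleGraph (Fin t × Fin r) where
  Adj x y := x.1 = y.1 ∧ x.2 ≠ y.2
  symm := ⟨fun _ _ h => ⟨h.1.symm, h.2.symm⟩⟩
  loopless := ⟨fun _ h => h.2 rfl⟩

/-- `gv` and `gnp` agree. -/
def StGv : Prop := ∀ (n : ℕ) (p : ℝ) (P : SimpleGraph (Fin n) → Prop), gv (Fin n) p P = gnp n p P

/-- Containment is more likely on larger vertex sets. -/
def StMonoV : Prop := ∀ (U V α : Type) [Fintype U] [Fintype V] [Fintype α] (A : SimpleGraph α),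
  Fintype.card U ≤ Fintype.card V → ∀ p : ℝ, 0 ≤ p → p ≤ 1 →
  gv U p (fun G => A.IsContained G) ≤ gv V p (fun G => A.IsContained G)

/-- Two rounds of exposure. -/
def StTwo : Prop := ∀ (α β V : Type) [Fintype α] [Fintype β] [Fintype V] (A : SimpleGraph α)
  (B : SimpleGraph β), Fintype.card α + Fintype.card β = Fintype.card V →
  ∀ p₁ p₂ δ₁ δ₂ : ℝ, 0 ≤ p₁ → p₁ ≤ 1 → 0 ≤ p₂ → p₂ ≤ 1 → 0 ≤ δ₁ → 0 ≤ δ₂ →
  1 - δ₁ ≤ gv V p₁ (fun G => A.IsContained G) → 1 - δ₂ ≤ gv β p₂ (fun G => B.IsContained G) →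
  1 - δ₁ - δ₂ ≤ gv V (p₁ + p₂ - p₁ * p₂) (fun G => (A ⊕g B).IsContained G)

/-- The decomposition of a graph of maximum degree `Δ` into its `K_{Δ+1}`'s and the rest. -/
def StDecomp : Prop := ∀ (Δ n : ℕ) (H : SimpleGraph (Fin n)), 1 ≤ Δ → (∀ v, H.degree v ≤ Δ) →
  ∃ (t b : ℕ) (B : SimpleGraph (Fin b)), (Δ + 1) * t + b = n ∧ (∀ v, B.degree v ≤ Δ) ∧
    B.CliqueFree (Δ + 1) ∧ H.IsContained (tK t (Δ + 1) ⊕g B)

/-- The number of automorphisms of a graph of maximum degree `Δ`. -/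
def StAut : Prop := ∀ (V : Type) [Fintype V] (H : SimpleGraph V) (Δ : ℕ), 1 ≤ Δ →
  (∀ v, H.degree v ≤ Δ) →
  Nat.card (H ≃g H) ≤ Fintype.card V ^ Nat.card H.ConnectedComponent
    * Δ ^ (Fintype.card V - Nat.card H.ConnectedComponent)

/-- The number of edges of a graph of maximum degree `Δ` without `K_{Δ+1}`. -/
def StDens : Prop := ∀ (V : Type) [Fintype V] (H : SimpleGraph V) (Δ : ℕ), 1 ≤ Δ →
  (∀ v, H.degree v ≤ Δ) → H.CliqueFree (Δ + 1) →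
  2 * (Δ + 1) * H.edgeSet.ncard + Δ * (Δ + 2) * Nat.card H.ConnectedComponent
    ≤ Δ * (Δ + 2) * Fintype.card V

/-- Graphs of maximum degree `Δ` without `K_{Δ+1}` appear below the threshold. -/
def StRest : Prop := ∀ Δ : ℕ, 1 ≤ Δ → ∀ δ : ℝ, 0 < δ → ∃ n0 : ℕ, ∀ n : ℕ, n0 ≤ n → ∀ m : ℕ, m ≤ n →
  ∀ H : SimpleGraph (Fin m), (∀ v, H.degree v ≤ Δ) → H.CliqueFree (Δ + 1) →
  ∀ p : ℝ, 0 ≤ p → p ≤ 1 → (n : ℝ) ^ (-(2 : ℝ) / ((Δ : ℝ) + 1)) ≤ p →
  1 - δ ≤ gnp n p (fun G => H.IsContained G)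

/-- The goal, in the notation of this file. -/
def StMain : Prop := ∀ (Δ : ℕ) (H : ∀ n : ℕ, SimpleGraph (Fin n)) (p : ℕ → ℝ), 1 ≤ Δ →
  (∀ (n : ℕ) (v : Fin n), (H n).degree v ≤ Δ) → (∀ n : ℕ, 0 ≤ p n ∧ p n ≤ 1) →
  Filter.Tendsto (fun n : ℕ => p n * (n : ℝ) ^ ((2 : ℝ) / ((Δ : ℝ) + 1)) /
    (Real.log (n : ℝ)) ^ ((1 : ℝ) / (((Δ + 1).choose 2 : ℕ) : ℝ))) Filter.atTop Filter.atTop →
  Filter.Tendsto (fun n : ℕ => gnp n (p n) (fun G => (H n).IsContained G)) Filter.atTop (nhds 1)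

end Pool.Agent.Y240.KF
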