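import Pool.Agent.Y240.KF.Tools

set_option autoImplicit false
set_option linter.unusedSectionVars false

/-!
# The coupling theorem: the cliques of a random graph contain a random hypergraph
-/

namespace Pool.Agent.Y240.KF

open Finset
open scoped Classical
open Pool.Agent.TH965 Pool.Agent.TH965.Emb Pool.Agent.TH965.Spread
open Pool.Agent.TH948.KK (ind ind_true ind_false ind_nonneg ind_le_one ind_mono ind_congr exs_congr)

section

variable {E I : Type}

lemma mem_cov {A : I → Finset E} {T : Finset I} {e : E} : e ∈ cov A T ↔ ∃ i ∈ T, e ∈ A i := by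
  simp [cov]

lemma cov_mono {A : I → Finset E} {T T' : Finset I} (h : T ⊆ T') : cov A T ⊆ cov A T' := by
  intro e he
  rw [mem_cov] at he ⊢
  obtain ⟨i, hi, hei⟩ := he
  exact ⟨i, h hi, hei⟩

lemma cov_insert (A : I → Finset E) (j : I) (T : Finset I) :
    cov A (insert j T) = A j ∪ cov A T := by
  unfold cov
  rw [Finset.biUnion_insert]

/-- `QQ` is increasing in the set of cliques. -/
lemma QQ_mono (L : Finset I) (A : I → Finset E) {p : ℝ} (hp0 : 0 ≤ p) (hp1 : p ≤ 1) (j : I)
    {T T' : Finset I} (h : T ⊆ T') : QQ L A p j T ≤ QQ L A p j T' := by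
  unfold QQ
  apply Finset.sum_le_sum
  intro i _
  apply pow_le_pow_of_le_one hp0 hp1
  apply Finset.card_le_card
  apply Finset.sdiff_subset_sdiff (Finset.Subset.refl _)
  exact Finset.union_subset_union_right (cov_mono h)

/-- The weight of a history: the cliques in `Y` were found present, those in `N` absent. -/
noncomputable def wt (A : I → Finset E) (Y N : Finset I) (W : Finset E) : ℝ :=
  (1 / 2) ^ Y.card * ind (cov A Y ⊆ W) * ∏ i ∈ N, (1 - (1 / 2) * ind (A i ⊆ W))

lemma fac_nonneg (P : Prop) : 0 ≤ 1 - (1 / 2) * ind P := by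
  have := ind_le_one P
  linarith

lemma fac_le_one (P : Prop) : 1 - (1 / 2) * ind P ≤ 1 := by
  have := ind_nonneg P
  linarith

lemma wt_nonneg (A : I → Finset E) (Y N : Finset I) (W : Finset E) : 0 ≤ wt A Y N W := by
  unfold wt
  apply mul_nonneg (mul_nonneg (by positivity) (ind_nonneg _))
  exact Finset.prod_nonneg (fun i _ => fac_nonneg _)

lemma wt_yes (A : I → Finset E) (Y N : Finset I) (j : I) (hj : j ∉ Y) (W : Finset E) :
    wt A (insert j Y) N W = wt A Y N W * ((1 / 2) * ind (A j ⊆ W)) := by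
  unfold wt
  rw [Finset.card_insert_of_notMem hj, pow_succ, cov_insert]
  have : ind (A j ∪ cov A Y ⊆ W) = ind (A j ⊆ W) * ind (cov A Y ⊆ W) := by
    by_cases h1 : A j ⊆ W
    · rw [ind_true h1, one_mul]
      apply ind_congr
      rw [Finset.union_subset_iff]
      exact ⟨fun h => h.2, fun h => ⟨h1, h⟩⟩
    · rw [ind_false h1, zero_mul, ind_false]
      intro h
      exact h1 (Finset.union_subset_iff.mp h).1
  rw [this]
  ring

lemma wt_no (A : I → Finset E) (Y N : Finset I) (j : I) (hj : j ∉ N) (W : Finset E) :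
    wt A Y (insert j N) W = wt A Y N W * (1 - (1 / 2) * ind (A j ⊆ W)) := by
  unfold wt
  rw [Finset.prod_insert hj]
  ring

lemma wt_add (A : I → Finset E) (Y N : Finset I) (j : I) (hj : j ∉ Y) (hj' : j ∉ N) (W : Finset E) :
    wt A (insert j Y) N W + wt A Y (insert j N) W = wt A Y N W := by
  rw [wt_yes A Y N j hj, wt_no A Y N j hj']
  ring

/-- The expected weight. -/
lemma exs_wt (s : Finset E) (p : ℝ) (A : I → Finset E) (Y N : Finset I) (hY : cov A Y ⊆ s) :
    exs s p (wt A Y N) = (1 / 2) ^ Y.card * (p ^ (cov A Y).card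
      * exs s p (fun W => ∏ i ∈ N, (1 - (1 / 2) * ind (A i ⊆ W ∪ cov A Y)))) := by
  have h := exs_cond s p (cov A Y) hY (fun W => ∏ i ∈ N, (1 - (1 / 2) * ind (A i ⊆ W)))
  rw [← h, ← exs_mul_left]
  apply exs_congr
  intro W _
  unfold wt
  ring

lemma half_le (x : ℝ) (h0 : 0 ≤ x) (h1 : x ≤ 1) :
    Real.exp (-(Real.log 2 * x)) ≤ 1 - (1 / 2) * x := by
  have h := convexOn_exp.2 (Set.mem_univ 0) (Set.mem_univ (-Real.log 2))
    (show 0 ≤ 1 - x by linarith) h0 (by ring)
  simp only [smul_eq_mul, mul_zero, zero_add, Real.exp_zero, mul_one] at h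
  rw [Real.exp_neg, Real.exp_log (by norm_num)] at h
  calc Real.exp (-(Real.log 2 * x)) = Real.exp (x * -Real.log 2) := by congr 1; ring
    _ ≤ 1 - x + x * 2⁻¹ := h
    _ = 1 - (1 / 2) * x := by ring

/-- The conditional probability of a clique, given a history. -/
lemma cond_lower (s : Finset E) (L : Finset I) (A : I → Finset E) (hA : ∀ i ∈ L, A i ⊆ s)
    (D K : ℕ) (hD : ∀ i ∈ L, (A i).card ≤ D) (p π : ℝ) (hp0 : 0 < p) (hp1 : p ≤ 1) (hπ0 : 0 ≤ π)
    (hπ : π ≤ (1 / 2) ^ (K + 1) * p ^ D) (Y N : Finset I) (hY : Y ⊆ L) (hN : N ⊆ L) (j : I)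
    (hj : j ∈ L) (hjY : j ∉ Y) (hjN : j ∉ N) (hQ : QQ L A p j Y ≤ K) :
    π * exs s p (wt A Y N) ≤ exs s p (wt A (insert j Y) N) := by
  have hcov : cov A Y ⊆ s := by
    intro e he
    obtain ⟨i, hi, hei⟩ := mem_cov.mp he
    exact hA i (hY hi) hei
  have hcov' : cov A (insert j Y) ⊆ s := by
    rw [cov_insert]
    exact Finset.union_subset (hA j hj) hcov
  rw [exs_wt s p A Y N hcov, exs_wt s p A (insert j Y) N hcov', Finset.card_insert_of_notMem hjY]
  set G : ℝ := exs s p (fun W => ∏ i ∈ N, (1 - (1 / 2) * ind (A i ⊆ W ∪ cov A Y))) with hG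
  set G' : ℝ := exs s p (fun W => ∏ i ∈ N, (1 - (1 / 2) * ind (A i ⊆ W ∪ cov A (insert j Y))))
    with hG'
  have hG0 : 0 ≤ G := exs_nonneg s hp0.le hp1
    (fun W _ => Finset.prod_nonneg (fun i _ => fac_nonneg _))
  -- the main inequality
  have hmain : G * (1 / 2) ^ K ≤ G' := by
    set N0 := N.filter (fun i => ¬ (A i ∩ A j).Nonempty) with hN0
    set N1 := N.filter (fun i => (A i ∩ A j).Nonempty) with hN1
    have hanti : ∀ (C : Finset E) (i : I) (W W' : Finset E), W ⊆ W' →
        1 - (1 / 2) * ind (A i ⊆ W' ∪ C) ≤ 1 - (1 / 2) * ind (A i ⊆ W ∪ C) := by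
      intro C i W W' h
      have : ind (A i ⊆ W ∪ C) ≤ ind (A i ⊆ W' ∪ C) :=
        ind_mono (fun h' => h'.trans (Finset.union_subset_union_left h))
      linarith
    have h1 := exs_harris_prod hp0.le hp1 s
      (fun W => ∏ i ∈ N0, (1 - (1 / 2) * ind (A i ⊆ W ∪ cov A (insert j Y))))
      (fun W => Finset.prod_nonneg (fun i _ => fac_nonneg _))
      (fun W W' h => Finset.prod_le_prod (fun i _ => fac_nonneg _) (fun i _ => hanti _ i W W' h))
      N1 (fun i W => 1 - (1 / 2) * ind (A i ⊆ W ∪ cov A (insert j Y)))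
      (fun i _ W => fac_nonneg _) (fun i _ W W' h => hanti _ i W W' h)
    have h2 : exs s p (fun W => (∏ i ∈ N0, (1 - (1 / 2) * ind (A i ⊆ W ∪ cov A (insert j Y))))
        * ∏ i ∈ N1, (1 - (1 / 2) * ind (A i ⊆ W ∪ cov A (insert j Y)))) = G' := by
      rw [hG']
      apply exs_congr
      intro W _
      rw [mul_comm]
      exact Finset.prod_filter_mul_prod_filter_not N _ _
    rw [h2] at h1
    -- the first factor
    have h3 : G ≤ exs s p
        (fun W => ∏ i ∈ N0, (1 - (1 / 2) * ind (A i ⊆ W ∪ cov A (insert j Y)))) := by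
      rw [hG]
      apply exs_mono s hp0.le hp1
      intro W _
      have e1 : ∏ i ∈ N0, (1 - (1 / 2) * ind (A i ⊆ W ∪ cov A (insert j Y)))
          = ∏ i ∈ N0, (1 - (1 / 2) * ind (A i ⊆ W ∪ cov A Y)) := by
        apply Finset.prod_congr rfl
        intro i hi
        rw [hN0, Finset.mem_filter, Finset.not_nonempty_iff_eq_empty] at hi
        congr 2
        apply ind_congr
        rw [cov_insert]
        constructor
        · intro h e he
          have h4 := h he
          simp only [Finset.mem_union] at h4 ⊢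
          rcases h4 with h4 | h4 | h4
          · exact Or.inl h4
          · exfalso
            have : e ∈ A i ∩ A j := Finset.mem_inter.mpr ⟨he, h4⟩
            rw [hi.2] at this
            exact absurd this (Finset.notMem_empty e)
          · exact Or.inr h4
        · intro h e he
          have h4 := h he
          simp only [Finset.mem_union] at h4 ⊢
          tauto
      rw [e1]
      rw [← Finset.prod_filter_mul_prod_filter_not N (fun i => (A i ∩ A j).Nonempty)]
      have e2 : ∏ i ∈ N.filter (fun i => (A i ∩ A j).Nonempty),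
          (1 - (1 / 2) * ind (A i ⊆ W ∪ cov A Y)) ≤ 1 :=
        Finset.prod_le_one (fun i _ => fac_nonneg _) (fun i _ => fac_le_one _)
      have e3 : 0 ≤ ∏ i ∈ N0, (1 - (1 / 2) * ind (A i ⊆ W ∪ cov A Y)) :=
        Finset.prod_nonneg (fun i _ => fac_nonneg _)
      calc _ ≤ 1 * ∏ i ∈ N0, (1 - (1 / 2) * ind (A i ⊆ W ∪ cov A Y)) :=
            mul_le_mul_of_nonneg_right e2 e3
        _ = _ := one_mul _
    -- the second factor
    have h4 : ∀ i ∈ N1, exs s p (fun W => 1 - (1 / 2) * ind (A i ⊆ W ∪ cov A (insert j Y)))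
        = 1 - (1 / 2) * p ^ (A i \ (A j ∪ cov A Y)).card := by
      intro i hi
      have hiL : i ∈ L := hN (Finset.mem_filter.mp hi).1
      rw [exs_sub, exs_const, exs_mul_left, ← exs_subset s p (A i \ (A j ∪ cov A Y))
        (Finset.sdiff_subset.trans (hA i hiL))]
      congr 2
      apply exs_congr
      intro W _
      apply ind_congr
      rw [cov_insert]
      constructor
      · intro h e he
        rw [Finset.mem_sdiff] at he
        exact (Finset.mem_union.mp (h he.1)).resolve_right he.2
      · intro h e he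
        by_cases hc : e ∈ A j ∪ cov A Y
        · exact Finset.mem_union_right _ hc
        · exact Finset.mem_union_left _ (h (Finset.mem_sdiff.mpr ⟨he, hc⟩))
    have h5 : (1 / 2 : ℝ) ^ K ≤
        ∏ i ∈ N1, exs s p (fun W => 1 - (1 / 2) * ind (A i ⊆ W ∪ cov A (insert j Y))) := by
      rw [Finset.prod_congr rfl h4]
      have h6 : ∏ i ∈ N1, Real.exp (-(Real.log 2 * p ^ (A i \ (A j ∪ cov A Y)).card))
          ≤ ∏ i ∈ N1, (1 - (1 / 2) * p ^ (A i \ (A j ∪ cov A Y)).card) := by
        apply Finset.prod_le_prod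
        · intro i _; exact (Real.exp_pos _).le
        · intro i _
          exact half_le _ (pow_nonneg hp0.le _) (pow_le_one₀ hp0.le hp1)
      refine le_trans ?_ h6
      rw [← Real.exp_sum]
      have h7 : ∑ i ∈ N1, p ^ (A i \ (A j ∪ cov A Y)).card ≤ K := by
        refine le_trans ?_ hQ
        unfold QQ
        apply Finset.sum_le_sum_of_subset_of_nonneg
        · intro i hi
          rw [hN1, Finset.mem_filter] at hi
          rw [Finset.mem_filter]
          exact ⟨hN hi.1, fun h => hjN (h ▸ hi.1), hi.2⟩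
        · intro i _ _
          exact pow_nonneg hp0.le _
      have h8 : (1 / 2 : ℝ) ^ K = Real.exp (-(Real.log 2 * K)) := by
        rw [Real.exp_neg, mul_comm, ← Real.log_pow, Real.exp_log (by positivity), one_div, inv_pow]
      rw [h8]
      apply Real.exp_le_exp.mpr
      rw [Finset.sum_neg_distrib, ← Finset.mul_sum]
      have hl : 0 < Real.log 2 := Real.log_pos (by norm_num)
      have := mul_le_mul_of_nonneg_left h7 hl.le
      linarith
    refine le_trans ?_ h1
    exact mul_le_mul h3 h5 (by positivity) (hG0.trans h3)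
  have hcard : (cov A (insert j Y)).card ≤ (cov A Y).card + D := by
    rw [cov_insert]
    have := Finset.card_union_le (A j) (cov A Y)
    have := hD j hj
    omega
  have hpow : p ^ (cov A Y).card * p ^ D ≤ p ^ (cov A (insert j Y)).card := by
    rw [← pow_add]
    exact pow_le_pow_of_le_one hp0.le hp1 hcard
  calc π * ((1 / 2) ^ Y.card * (p ^ (cov A Y).card * G))
      ≤ ((1 / 2) ^ (K + 1) * p ^ D) * ((1 / 2) ^ Y.card * (p ^ (cov A Y).card * G)) := by
        apply mul_le_mul_of_nonneg_right hπ
        positivity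
    _ = (1 / 2) ^ (Y.card + 1) * ((p ^ (cov A Y).card * p ^ D) * (G * (1 / 2) ^ K)) := by
        rw [pow_succ, pow_succ]; ring
    _ ≤ (1 / 2) ^ (Y.card + 1) * (p ^ (cov A (insert j Y)).card * G') := by
        apply mul_le_mul_of_nonneg_left _ (by positivity)
        exact mul_le_mul hpow hmain (by positivity) (by positivity)

lemma theta_arith (a b m0 m1 V0 V1 π : ℝ) (hm1 : 0 ≤ m1) (hπ0 : 0 ≤ π) (_hab : 0 ≤ a + b)
    (h1 : m1 * V1 ≤ a) (h0 : m0 * V0 ≤ b) (h : (m0 + m1) * V0 ≤ a + b)
    (hm : 0 ≤ m0) (hk : π * (m0 + m1) ≤ m1) :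
    (m0 + m1) * ((1 - π) * V0 + π * V1) ≤ a + b := by
  rcases hm1.lt_or_eq with hpos | hz
  · set θ : ℝ := π * (m0 + m1) / m1 with hθ
    have hθ0 : 0 ≤ θ := by positivity
    have hθ1 : θ ≤ 1 := by rw [hθ, div_le_one hpos]; exact hk
    have hθm : θ * m1 = π * (m0 + m1) := by rw [hθ]; field_simp
    have e1 : (m0 + m1) * ((1 - π) * V0 + π * V1)
        = (1 - θ) * ((m0 + m1) * V0) + θ * (m1 * V1 + m0 * V0) := by
      have : (m0 + m1) * ((1 - π) * V0 + π * V1)
        = (m0 + m1) * V0 - (π * (m0 + m1)) * V0 + (π * (m0 + m1)) * V1 := by ring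
      rw [this, ← hθm]
      ring
    rw [e1]
    have e2 := mul_le_mul_of_nonneg_left h (show 0 ≤ 1 - θ by linarith)
    have e3 := mul_le_mul_of_nonneg_left (add_le_add h1 h0) hθ0
    nlinarith
  · rw [← hz] at hk h h1 ⊢
    rw [add_zero] at hk h ⊢
    have hk' : π * m0 = 0 := le_antisymm hk (mul_nonneg hπ0 hm)
    have : m0 * ((1 - π) * V0 + π * V1) = m0 * V0 + (π * m0) * (V1 - V0) := by ring
    rw [this, hk', zero_mul, add_zero]
    exact h

end

/-- **The coupling theorem.** -/
theorem coup : StCoup := by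
  intro E I s L A hA D K hD p π hp0 hp1 hπ0 hπ Φ Ψ hΦ hΨ hΨΦ
  have hπ1 : π ≤ 1 := by
    refine hπ.trans ?_
    have h1 : (1 / 2 : ℝ) ^ (K + 1) ≤ 1 := pow_le_one₀ (by norm_num) (by norm_num)
    have h2 : p ^ D ≤ 1 := pow_le_one₀ hp0.le hp1
    have h3 : (0 : ℝ) ≤ p ^ D := by positivity
    calc (1 / 2 : ℝ) ^ (K + 1) * p ^ D ≤ 1 * 1 := mul_le_mul h1 h2 h3 (by norm_num)
      _ = 1 := one_mul 1
  set bad : Finset I → ℝ := fun T => ind (¬ ∀ j ∈ L, QQ L A p j T ≤ K) with hbad
  have key : ∀ (M : Finset I), M ⊆ L → ∀ Y N : Finset I, Y ⊆ L → N ⊆ L → Disjoint M Y →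
      Disjoint M N → exs s p (wt A Y N) * exs M π (fun T => Ψ (Y ∪ T) - bad (Y ∪ T))
        ≤ exs s p (fun W => Φ W * wt A Y N W) := by
    intro M
    induction M using Finset.induction_on with
    | empty =>
      intro _ Y N hY hN _ _
      rw [exs_empty, Finset.union_empty, mul_comm, ← exs_mul_left]
      apply exs_mono s hp0.le hp1
      intro W hW
      by_cases hc : cov A Y ⊆ W
      · apply mul_le_mul_of_nonneg_right _ (wt_nonneg A Y N W)
        have h1 := hΨΦ Y hY W hW hc
        have h2 : 0 ≤ bad Y := ind_nonneg _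
        linarith
      · have : wt A Y N W = 0 := by
          unfold wt
          rw [ind_false hc]
          ring
        rw [this, mul_zero, mul_zero]
    | insert j M hjM ih =>
      intro hML Y N hY hN hdY hdN
      have hjL : j ∈ L := hML (Finset.mem_insert_self j M)
      have hML' : M ⊆ L := fun x hx => hML (Finset.mem_insert_of_mem hx)
      rw [Finset.disjoint_insert_left] at hdY hdN
      have hmu0 : 0 ≤ exs s p (wt A Y N) :=
        exs_nonneg s hp0.le hp1 (fun W _ => wt_nonneg A Y N W)
      have hΦ0 : 0 ≤ exs s p (fun W => Φ W * wt A Y N W) :=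
        exs_nonneg s hp0.le hp1 (fun W _ => mul_nonneg (hΦ W) (wt_nonneg A Y N W))
      by_cases hQ : QQ L A p j Y ≤ K
      · have hk := cond_lower s L A hA D K hD p π hp0 hp1 hπ0 hπ Y N hY hN j hjL hdY.1 hdN.1 hQ
        have hsum : exs s p (wt A Y (insert j N)) + exs s p (wt A (insert j Y) N)
            = exs s p (wt A Y N) := by
          rw [← exs_add]
          apply exs_congr
          intro W _
          rw [add_comm]
          exact wt_add A Y N j hdY.1 hdN.1 W
        have hsumΦ : exs s p (fun W => Φ W * wt A (insert j Y) N W)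
            + exs s p (fun W => Φ W * wt A Y (insert j N) W)
            = exs s p (fun W => Φ W * wt A Y N W) := by
          rw [← exs_add]
          apply exs_congr
          intro W _
          rw [← mul_add, wt_add A Y N j hdY.1 hdN.1 W]
        have ihY := ih hML' (insert j Y) N (Finset.insert_subset hjL hY) hN
          (by rw [Finset.disjoint_insert_right]; exact ⟨hjM, hdY.2⟩) hdN.2
        have ihN := ih hML' Y (insert j N) hY (Finset.insert_subset hjL hN) hdY.2
          (by rw [Finset.disjoint_insert_right]; exact ⟨hjM, hdN.2⟩)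
        have ih0 := ih hML' Y N hY hN hdY.2 hdN.2
        have hYN : exs M π (fun T => Ψ (insert j Y ∪ T) - bad (insert j Y ∪ T))
            = exs M π (fun T => Ψ (Y ∪ insert j T) - bad (Y ∪ insert j T)) := by
          apply exs_congr
          intro T _
          rw [Finset.insert_union, Finset.union_insert]
        rw [hYN] at ihY
        rw [exs_insert M j hjM, ← hsum, ← hsumΦ]
        rw [← hsum, ← hsumΦ] at ih0
        rw [← hsum] at hk
        apply theta_arith _ _ _ _ _ _ _ _ hπ0 _ ihY ihN ih0 _ hk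
        · exact exs_nonneg s hp0.le hp1 (fun W _ => wt_nonneg A _ N W)
        · rw [hsumΦ]; exact hΦ0
        · exact exs_nonneg s hp0.le hp1 (fun W _ => wt_nonneg A Y _ W)
      · have hneg : exs (insert j M) π (fun T => Ψ (Y ∪ T) - bad (Y ∪ T)) ≤ 0 := by
          have := exs_mono (insert j M) hπ0 hπ1 (f := fun T => Ψ (Y ∪ T) - bad (Y ∪ T))
            (g := fun _ => (0 : ℝ)) (by
              intro T _
              have h1 : bad (Y ∪ T) = 1 := by
                apply ind_true
                intro h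
                apply hQ
                exact (QQ_mono L A hp0.le hp1 j Finset.subset_union_left).trans (h j hjL)
              have h2 := hΨ (Y ∪ T)
              rw [h1]
              linarith)
          rwa [exs_const] at this
        exact (mul_nonpos_of_nonneg_of_nonpos hmu0 hneg).trans hΦ0
  have h := key L (Finset.Subset.refl L) ∅ ∅ (Finset.empty_subset L) (Finset.empty_subset L)
    (Finset.disjoint_empty_right L) (Finset.disjoint_empty_right L)
  have hw : ∀ W : Finset E, wt A (∅ : Finset I) ∅ W = 1 := by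
    intro W
    unfold wt cov
    simp [ind_true]
  have h1 : exs s p (wt A (∅ : Finset I) ∅) = 1 := by
    rw [← exs_const s p 1]
    apply exs_congr
    intro W _
    exact hw W
  have h2 : exs s p (fun W => Φ W * wt A (∅ : Finset I) ∅ W) = exs s p Φ := by
    apply exs_congr
    intro W _
    rw [hw, mul_one]
  rw [h1, one_mul, h2] at h
  refine le_trans (le_of_eq ?_) h
  rw [← exs_sub]
  apply exs_congr
  intro T _
  rw [Finset.empty_union]

end Pool.Agent.Y240.KF
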