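import Pool.Agent.Y240.KF.Coup

set_option autoImplicit false
set_option linter.unusedSectionVars false

/-!
# The threshold of a partite `K_r`-factor
-/

namespace Pool.Agent.Y240.KF

open Finset Filter
open scoped Classical
open Pool.Agent.TH965 Pool.Agent.TH965.Emb Pool.Agent.TH965.Spread
open Pool.Agent.TH948.KK (ind ind_true ind_false ind_nonneg ind_le_one ind_mono ind_congr exs_congr)

/-- `exs` is increasing in the density for increasing functions. -/
lemma exs_mono_p {X : Type*} [DecidableEq X] (s : Finset X) {p p' : ℝ} (hp0 : 0 ≤ p) (hpp : p ≤ p')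
    (hp1 : p' ≤ 1) (f : Finset X → ℝ) (hf : ∀ W W', W ⊆ W' → f W ≤ f W') :
    exs s p f ≤ exs s p' f := by
  obtain ⟨b, hb0, hb1, hb⟩ : ∃ b : ℝ, 0 ≤ b ∧ b ≤ 1 ∧ p' = p + b - p * b := by
    by_cases h1 : p = 1
    · exact ⟨1, by norm_num, le_refl 1, by rw [h1]; linarith⟩
    · have h1' : 0 < 1 - p := by
        rcases lt_or_eq_of_le (hpp.trans hp1) with h | h
        · linarith
        · exact absurd h h1
      refine ⟨(p' - p) / (1 - p), div_nonneg (by linarith) h1'.le, ?_, ?_⟩
      · rw [div_le_one h1']; linarith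
      · field_simp
        ring
  rw [hb, exs_union]
  apply exs_mono _ hp0 (hpp.trans hp1)
  intro W₁ _
  have h1 := exs_mono s hb0 hb1 (f := fun _ => f W₁) (g := fun W₂ => f (W₁ ∪ W₂))
    (fun W₂ _ => hf _ _ Finset.subset_union_left)
  rwa [exs_const] at h1

lemma exs_sum' {X J : Type*} [DecidableEq X] (s : Finset X) (p : ℝ) (N : Finset J)
    (f : J → Finset X → ℝ) : exs s p (fun W => ∑ j ∈ N, f j W) = ∑ j ∈ N, exs s p (f j) := by
  unfold exs
  rw [Finset.sum_comm]
  apply Finset.sum_congr rfl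
  intro W _
  rw [Finset.mul_sum]

/-- Powers of `C log k + 1` are small compared with `k`. -/
lemma log_pow_small (C : ℝ) (hC : 0 ≤ C) (a : ℕ) (η : ℝ) (hη : 0 < η) :
    ∀ᶠ k : ℕ in atTop, (C * Real.log k + 1) ^ a ≤ η * k := by
  have h1 : ∀ᶠ x : ℝ in atTop, Real.log x ^ a ≤ η / (C + 1) ^ a * x := by
    have h := (Real.isLittleO_pow_log_id_atTop (n := a)).bound
      (show 0 < η / (C + 1) ^ a by positivity)
    filter_upwards [h, eventually_ge_atTop 1] with x hx hx1
    have hlog : 0 ≤ Real.log x ^ a := pow_nonneg (Real.log_nonneg hx1) a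
    rw [Real.norm_of_nonneg hlog, id_eq, Real.norm_of_nonneg (by linarith)] at hx
    exact hx
  have h2 : ∀ᶠ x : ℝ in atTop, 1 ≤ Real.log x := by
    filter_upwards [eventually_ge_atTop (Real.exp 1)] with x hx
    rw [← Real.log_exp 1]
    exact Real.log_le_log (Real.exp_pos 1) hx
  have h3 := (h1.and h2)
  have h4 := tendsto_natCast_atTop_atTop.eventually h3
  filter_upwards [h4] with k hk
  obtain ⟨hk1, hk2⟩ := hk
  have hlog0 : 0 ≤ Real.log k := by linarith
  calc (C * Real.log k + 1) ^ a ≤ ((C + 1) * Real.log k) ^ a := by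
        apply pow_le_pow_left₀ (by positivity)
        nlinarith
    _ = (C + 1) ^ a * Real.log k ^ a := mul_pow _ _ _
    _ ≤ (C + 1) ^ a * (η / (C + 1) ^ a * k) := by
        apply mul_le_mul_of_nonneg_left hk1 (by positivity)
    _ = η * k := by field_simp

lemma two_choose (r : ℕ) : 2 * r.choose 2 = r * (r - 1) := by
  rw [Nat.choose_two_right]
  exact Nat.mul_div_cancel' (Nat.even_mul_pred_self r).two_dvd

lemma Ed_subset (r k : ℕ) (i : Fin r → Fin k) : Ed r k i ⊆ eF (⊤ : SimpleGraph (Fin r × Fin k)) := by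
  intro e he
  unfold Ed at he
  rw [Finset.mem_image] at he
  obtain ⟨e', he', rfl⟩ := he
  rw [Finset.mem_filter] at he'
  rw [mem_eF, SimpleGraph.edgeSet_top]
  induction e' using Sym2.ind with
  | _ a b =>
    rw [Sym2.map_mk]
    have h1 : a ≠ b := by
      intro h
      exact he'.2 (by rw [h]; exact rfl)
    intro h
    have h2 : ((a, i a) : Fin r × Fin k) = (b, i b) := h
    exact h1 (congrArg Prod.fst h2)

lemma Ed_card (r k : ℕ) (i : Fin r → Fin k) : (Ed r k i).card ≤ r.choose 2 := by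
  unfold Ed
  refine Finset.card_image_le.trans ?_
  have h1 : ((univ : Finset (Sym2 (Fin r))).filter (fun e => ¬ e.IsDiag)) ⊆
      eF (⊤ : SimpleGraph (Fin r)) := by
    intro e he
    rw [mem_eF, SimpleGraph.edgeSet_top]
    exact (Finset.mem_filter.mp he).2
  exact (Finset.card_le_card h1).trans (eF_top_card r).le

lemma natlog_le (k : ℕ) (hk : 3 ≤ k) : (Nat.log 2 k + 1 : ℝ) ≤ 3 * Real.log k := by
  have hk' : (3 : ℝ) ≤ k := by exact_mod_cast hk
  have h1 : (2 : ℝ) ^ (Nat.log 2 k) ≤ k := by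
    exact_mod_cast Nat.pow_log_le_self 2 (by omega)
  have h2 := Real.log_le_log (by positivity) h1
  rw [Real.log_pow] at h2
  have h3 : (0.69 : ℝ) < Real.log 2 := by have := Real.log_two_gt_d9; linarith
  have h4 : 1 ≤ Real.log k := by
    rw [Real.le_log_iff_exp_le (by linarith)]
    linarith [Real.exp_one_lt_d9]
  have h5 : (0 : ℝ) ≤ Nat.log 2 k := Nat.cast_nonneg _
  nlinarith

theorem factor (hchain : StChain) (hcount : StCount) (hsham : StSham) : StFactor := by
  intro r hr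
  set D : ℕ := r.choose 2 with hD
  set m : ℕ := 2 * r * r with hm
  obtain ⟨K0, C0, hC0, hcnt⟩ := hcount r (m * D) hr
  set K : ℕ := K0 + 1 with hK
  set c0 : ℝ := 65536 * 48 with hc0
  set C : ℝ := 2 ^ (K + 1) * Real.exp 1 ^ (r - 1) * (19 * c0) with hC
  have hCpos : 0 < C := by positivity
  have hDpos : 0 < D := Nat.choose_pos hr
  refine ⟨C, hCpos, ?_⟩
  intro δ hδ
  have hηpos : 0 < δ / (2 * (2 * C0) ^ m) := by positivity
  have hev : ∀ᶠ k : ℕ in atTop, 3 ≤ k ∧ (C * Real.log k + 1) ^ (r + 1) ≤ 1 * k ∧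
      (C * Real.log k + 1) ^ (m + 2 * r) ≤ δ / (2 * (2 * C0) ^ m) * k ∧
      Real.exp (-(Real.log 3 * Real.log k)) ≤ δ / 2 ∧ 10000000 ≤ k := by
    refine (eventually_ge_atTop 3).and ((log_pow_small C hCpos.le (r + 1) 1 one_pos).and
      ((log_pow_small C hCpos.le (m + 2 * r) _ hηpos).and (Filter.Eventually.and ?_
        (eventually_ge_atTop 10000000))))
    have h1 : Tendsto (fun k : ℕ => Real.log 3 * Real.log k) atTop atTop :=
      (Real.tendsto_log_atTop.comp tendsto_natCast_atTop_atTop).const_mul_atTop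
        (Real.log_pos (by norm_num))
    have h2 := (Real.tendsto_exp_neg_atTop_nhds_zero.comp h1)
    have h3 := h2.eventually (ge_mem_nhds (show (0 : ℝ) < δ / 2 by linarith))
    exact h3
  obtain ⟨k0, hk0⟩ := Filter.eventually_atTop.mp hev
  refine ⟨k0, ?_⟩
  intro k hk p hp0 hp1 hp
  obtain ⟨hk3, hkA, hkB, hkC, hkD⟩ := hk0 k hk
  rw [one_mul] at hkA
  have hk3' : (3 : ℝ) ≤ k := by exact_mod_cast hk3
  have hkpos : (0 : ℝ) < k := by linarith
  have hlog : 1 ≤ Real.log k := by
    rw [Real.le_log_iff_exp_le hkpos]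
    linarith [Real.exp_one_lt_d9]
  set Lk : ℝ := C * Real.log k + 1 with hLk
  have hClog : 0 < C * Real.log k := by positivity
  have hLk1 : 1 ≤ Lk := by linarith
  have hr1 : 1 ≤ r - 1 := by omega
  have hkr : (k : ℝ) ≤ k ^ (r - 1) := le_self_pow₀ (by linarith) (by omega)
  have hkrpos : (0 : ℝ) < (k : ℝ) ^ (r - 1) := by positivity
  -- the density `p0`
  set y : ℝ := C * Real.log k / k ^ (r - 1) with hy
  have hypos : 0 < y := by positivity
  have hLkk : Lk ≤ k := le_trans (le_self_pow₀ hLk1 (by omega)) hkA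
  have hy1 : y ≤ 1 := by
    rw [hy, div_le_one hkrpos]
    linarith
  set p0 : ℝ := y ^ ((1 : ℝ) / D) with hp0def
  have hp0pos : 0 < p0 := Real.rpow_pos_of_pos hypos _
  have hp0D : p0 ^ D = y := by
    rw [hp0def, ← Real.rpow_natCast, ← Real.rpow_mul hypos.le, one_div,
      inv_mul_cancel₀ (by exact_mod_cast hDpos.ne'), Real.rpow_one]
  have hp01 : p0 ≤ 1 := Real.rpow_le_one hypos.le hy1 (by positivity)
  have hp0p : p0 ≤ p := by
    apply le_of_pow_le_pow_left₀ hDpos.ne' hp0
    rw [hp0D, hy, div_le_iff₀ hkrpos]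
    exact hp
  -- the square root
  set g : ℝ := Real.sqrt p0 with hg
  have hg2 : g ^ 2 = p0 := Real.sq_sqrt hp0pos.le
  have hgpos : 0 < g := Real.sqrt_pos.mpr hp0pos
  have hg1 : g ≤ 1 := by
    rw [hg, Real.sqrt_le_one]
    exact hp01
  have hgr : g ^ (r * (r - 1)) = y := by
    rw [← two_choose, pow_mul, hg2, hp0D]
  have hgr2 : g ^ r ≤ Lk / k := by
    apply le_of_pow_le_pow_left₀ (show r - 1 ≠ 0 by omega) (by positivity)
    rw [← pow_mul, hgr, div_pow, hy]
    apply div_le_div_of_nonneg_right _ hkrpos.le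
    calc C * Real.log k ≤ Lk := by linarith
      _ ≤ Lk ^ (r - 1) := le_self_pow₀ hLk1 (by omega)
  have hη : k * g ^ (r + 1) ≤ Lk * g := by
    rw [pow_succ]
    have := mul_le_mul_of_nonneg_right hgr2 hgpos.le
    calc (k : ℝ) * (g ^ r * g) ≤ k * (Lk / k * g) := mul_le_mul_of_nonneg_left this hkpos.le
      _ = Lk * g := by field_simp
  have hη1 : Lk * g ≤ 1 := by
    apply le_of_pow_le_pow_left₀ (show r ≠ 0 by omega) zero_le_one
    rw [mul_pow, one_pow]
    calc Lk ^ r * g ^ r ≤ Lk ^ r * (Lk / k) := mul_le_mul_of_nonneg_left hgr2 (by positivity)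
      _ = Lk ^ (r + 1) / k := by rw [pow_succ]; ring
      _ ≤ 1 := by rw [div_le_one hkpos]; exact hkA
  -- the density of the hypergraph
  set π : ℝ := (1 / 2) ^ (K + 1) * p0 ^ D with hπ
  have hπ0 : 0 ≤ π := by positivity
  have hhalf : (1 / 2 : ℝ) ^ (K + 1) ≤ 1 := pow_le_one₀ (by norm_num) (by norm_num)
  have hπy : π ≤ y := by
    rw [hπ, hp0D]
    calc (1 / 2 : ℝ) ^ (K + 1) * y ≤ 1 * y := mul_le_mul_of_nonneg_right hhalf hypos.le
      _ = y := one_mul y
  have hπ1 : π ≤ 1 := hπy.trans hy1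
  -- the counting estimates and the chain bound
  set ε : ℝ := C0 * (k * g ^ (r + 1) + g ^ 2) with hε
  have hε0 : 0 ≤ ε := by positivity
  have hcn := hcnt k g π (by omega) hgpos hg1 (hη.trans hη1) hπ0 (by rw [hgr]; exact hπy)
  rw [hg2] at hcn
  have hch : ∀ j : Fin r → Fin k, exs (univ : Finset (Fin r → Fin k)) π
      (fun T => ind (¬ QQ univ (Ed r k) p0 j T ≤ (K0 : ℝ) + 1)) ≤ ε ^ m := by
    intro j
    have := hchain (Sym2 (Fin r × Fin k)) (Fin r → Fin k) univ (Ed r k) D
      (fun i _ => Ed_card r k i) p0 π hp0pos.le hp01 hπ0 hπ1 j m K0 ε hε0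
      (fun B _ hB => (hcn j B hB).1) (fun B _ hB => by
        have h := (hcn j B hB).2
        rw [hε, hg2]
        exact h)
    exact this
  have hbad : exs (univ : Finset (Fin r → Fin k)) π
      (fun T => ind (¬ ∀ j ∈ (univ : Finset (Fin r → Fin k)), QQ univ (Ed r k) p0 j T ≤ (K : ℝ)))
      ≤ (k : ℝ) ^ r * ε ^ m := by
    have h1 : exs (univ : Finset (Fin r → Fin k)) π
      (fun T => ind (¬ ∀ j ∈ (univ : Finset (Fin r → Fin k)), QQ univ (Ed r k) p0 j T ≤ (K : ℝ)))
      ≤ exs (univ : Finset (Fin r → Fin k)) π (fun T => ∑ j ∈ (univ : Finset (Fin r → Fin k)),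
        ind (¬ QQ univ (Ed r k) p0 j T ≤ (K0 : ℝ) + 1)) := by
      apply exs_mono _ hπ0 hπ1
      intro T _
      by_cases hall : ∀ j ∈ (univ : Finset (Fin r → Fin k)), QQ univ (Ed r k) p0 j T ≤ (K : ℝ)
      · rw [ind_false (not_not.mpr hall)]
        exact Finset.sum_nonneg (fun j _ => ind_nonneg _)
      · rw [ind_true hall]
        push Not at hall
        obtain ⟨j, hj, hj2⟩ := hall
        have h2 := Finset.single_le_sum (f := fun j => ind (¬ QQ univ (Ed r k) p0 j T ≤ (K0 : ℝ) + 1))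
          (fun j _ => ind_nonneg _) hj
        refine le_trans ?_ h2
        rw [ind_true]
        rw [not_le]
        rw [hK] at hj2
        push_cast at hj2
        exact hj2
    refine h1.trans ?_
    rw [exs_sum']
    calc ∑ j ∈ (univ : Finset (Fin r → Fin k)), exs (univ : Finset (Fin r → Fin k)) π
          (fun T => ind (¬ QQ univ (Ed r k) p0 j T ≤ (K0 : ℝ) + 1))
        ≤ ∑ _j ∈ (univ : Finset (Fin r → Fin k)), ε ^ m := Finset.sum_le_sum (fun j _ => hch j)
      _ = (k : ℝ) ^ r * ε ^ m := by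
          rw [Finset.sum_const, Finset.card_univ, Fintype.card_fun, Fintype.card_fin,
            Fintype.card_fin, nsmul_eq_mul]
          push_cast
          ring
  have hbad2 : (k : ℝ) ^ r * ε ^ m ≤ δ / 2 := by
    have h1 : ε ≤ 2 * C0 * Lk * g := by
      rw [hε]
      have h2 : g ^ 2 ≤ Lk * g := by
        rw [pow_two]
        exact mul_le_mul_of_nonneg_right (hg1.trans hLk1) hgpos.le
      have h3 := mul_le_mul_of_nonneg_left (add_le_add hη h2) hC0.le
      linarith
    have h2 : ε ^ m ≤ (2 * C0) ^ m * (Lk ^ m * (Lk / k) ^ (2 * r)) := by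
      calc ε ^ m ≤ (2 * C0 * Lk * g) ^ m := pow_le_pow_left₀ hε0 h1 m
        _ = (2 * C0) ^ m * (Lk ^ m * (g ^ r) ^ (2 * r)) := by
            rw [mul_pow, mul_pow, ← pow_mul, hm]
            have : r * (2 * r) = 2 * r * r := by ring
            rw [this]
            ring
        _ ≤ (2 * C0) ^ m * (Lk ^ m * (Lk / k) ^ (2 * r)) := by
            apply mul_le_mul_of_nonneg_left _ (by positivity)
            apply mul_le_mul_of_nonneg_left _ (by positivity)
            exact pow_le_pow_left₀ (by positivity) hgr2 _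
    calc (k : ℝ) ^ r * ε ^ m ≤ (k : ℝ) ^ r * ((2 * C0) ^ m * (Lk ^ m * (Lk / k) ^ (2 * r))) :=
          mul_le_mul_of_nonneg_left h2 (by positivity)
      _ = (2 * C0) ^ m * Lk ^ (m + 2 * r) / k ^ r := by
          rw [div_pow, pow_add]
          have : (k : ℝ) ^ (2 * r) = k ^ r * k ^ r := by rw [← pow_add]; congr 1; ring
          rw [this]
          field_simp
      _ ≤ (2 * C0) ^ m * (δ / (2 * (2 * C0) ^ m) * k) / k ^ r := by
          apply div_le_div_of_nonneg_right _ (by positivity)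
          exact mul_le_mul_of_nonneg_left hkB (by positivity)
      _ = δ / 2 * (k / k ^ r) := by field_simp
      _ ≤ δ / 2 * 1 := by
          apply mul_le_mul_of_nonneg_left _ (by linarith)
          rw [div_le_one (by positivity)]
          exact le_self_pow₀ (by linarith) (by omega)
      _ = δ / 2 := mul_one _
  -- the matching
  set q : ℝ := (Real.exp 1 / k) ^ (r - 1) with hq
  have hqpos : 0 < q := by positivity
  have hπq : π = 19 * c0 * Real.log k * q := by
    rw [hπ, hp0D, hy, hC]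
    have : (1 / 2 : ℝ) ^ (K + 1) * 2 ^ (K + 1) = 1 := by rw [← mul_pow]; norm_num
    calc (1 / 2 : ℝ) ^ (K + 1) * (2 ^ (K + 1) * Real.exp 1 ^ (r - 1) * (19 * c0) * Real.log k
          / k ^ (r - 1))
        = ((1 / 2 : ℝ) ^ (K + 1) * 2 ^ (K + 1)) * (19 * c0 * Real.log k
          * (Real.exp 1 ^ (r - 1) / k ^ (r - 1))) := by ring
      _ = _ := by rw [this, one_mul, hq, div_pow]
  have hqsmall : 65536 * (48 * q) < 1 := by
    have hek : Real.exp 1 / k ≤ 1 := by
      rw [div_le_one hkpos]; linarith [Real.exp_one_lt_d9]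
    have h1 : q ≤ Real.exp 1 / k := by
      rw [hq]
      exact pow_le_of_le_one (by positivity) hek (by omega)
    have h2 : (10000000 : ℝ) ≤ k := by exact_mod_cast hkD
    have h3 : Real.exp 1 / k ≤ 2.7182818286 / 10000000 := by
      apply div_le_div₀ (by norm_num) Real.exp_one_lt_d9.le (by norm_num) h2
    norm_num at h3
    linarith
  have hsh := hsham r k (by omega) (by omega) q π le_rfl hqsmall hπ0 hπ1
  have hsh2 : Real.exp ((Real.log 3 / (65536 * (48 * q)))
        * (6 * 65536 * 48 * ((Nat.log 2 k + 1 : ℝ) * q) - π)) ≤ δ / 2 := by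
    refine le_trans (Real.exp_le_exp.mpr ?_) hkC
    have hl3 : 0 < Real.log 3 := Real.log_pos (by norm_num)
    have h1 := natlog_le k hk3
    have h2 : 6 * 65536 * 48 * ((Nat.log 2 k + 1 : ℝ) * q) - π ≤ -(c0 * q * Real.log k) := by
      rw [hπq, hc0]
      have := mul_le_mul_of_nonneg_right h1 hqpos.le
      nlinarith
    have h3 : 0 < 65536 * (48 * q) := by positivity
    calc (Real.log 3 / (65536 * (48 * q))) * (6 * 65536 * 48 * ((Nat.log 2 k + 1 : ℝ) * q) - π)
        ≤ (Real.log 3 / (65536 * (48 * q))) * (-(c0 * q * Real.log k)) :=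
          mul_le_mul_of_nonneg_left h2 (by positivity)
      _ = -(Real.log 3 * Real.log k) := by
          rw [hc0]; field_simp
  -- the coupling
  have hcoup := coup (Sym2 (Fin r × Fin k)) (Fin r → Fin k)
    (eF (⊤ : SimpleGraph (Fin r × Fin k))) univ (Ed r k) (fun i _ => Ed_subset r k i) D K
    (fun i _ => Ed_card r k i) p0 π hp0pos hp01 hπ0 le_rfl
    (fun W => ind (∃ σ : Fin r → Equiv.Perm (Fin k), ∀ x : Fin k, Ed r k (fun l => σ l x) ⊆ W))
    (fun T => ind (∃ σ : Fin r → Equiv.Perm (Fin k), ∀ x : Fin k, (fun l => σ l x) ∈ T))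
    (fun W => ind_nonneg _) (fun T => ind_le_one _)
    (fun T _ W _ hTW => ind_mono (fun ⟨σ, hσ⟩ => ⟨σ, fun x => by
      intro e he
      exact hTW (mem_cov.mpr ⟨_, hσ x, he⟩)⟩))
  have hΨ : exs (univ : Finset (Fin r → Fin k)) π
      (fun T => ind (∃ σ : Fin r → Equiv.Perm (Fin k), ∀ x : Fin k, (fun l => σ l x) ∈ T))
      = 1 - exs (univ : Finset (Fin r → Fin k)) π
      (fun T => ind (¬ ∃ σ : Fin r → Equiv.Perm (Fin k), ∀ x : Fin k, (fun l => σ l x) ∈ T)) := by
    rw [eq_sub_iff_add_eq, ← exs_add]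
    refine Eq.trans (exs_congr _ _ ?_) (exs_const _ π 1)
    intro T _
    by_cases h : ∃ σ : Fin r → Equiv.Perm (Fin k), ∀ x : Fin k, (fun l => σ l x) ∈ T
    · rw [ind_true h, ind_false (not_not.mpr h), add_zero]
    · rw [ind_false h, ind_true h, zero_add]
  have hfin : 1 - δ ≤ exs (eF (⊤ : SimpleGraph (Fin r × Fin k))) p0
      (fun W => ind (∃ σ : Fin r → Equiv.Perm (Fin k), ∀ x : Fin k, Ed r k (fun l => σ l x) ⊆ W)) := by
    have a1 : exs (univ : Finset (Fin r → Fin k)) π
      (fun T => ind (¬ ∃ σ : Fin r → Equiv.Perm (Fin k), ∀ x : Fin k, (fun l => σ l x) ∈ T))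
      ≤ δ / 2 := hsh.trans hsh2
    have a2 := hbad.trans hbad2
    have a3 : 1 - δ / 2 ≤ exs (univ : Finset (Fin r → Fin k)) π
      (fun T => ind (∃ σ : Fin r → Equiv.Perm (Fin k), ∀ x : Fin k, (fun l => σ l x) ∈ T)) := by
      rw [hΨ]; linarith
    have a4 : 1 - δ ≤ exs (univ : Finset (Fin r → Fin k)) π
      (fun T => ind (∃ σ : Fin r → Equiv.Perm (Fin k), ∀ x : Fin k, (fun l => σ l x) ∈ T))
      - exs (univ : Finset (Fin r → Fin k)) π
      (fun T => ind (¬ ∀ j ∈ (univ : Finset (Fin r → Fin k)), QQ univ (Ed r k) p0 j T ≤ (K : ℝ))) := by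
      linarith
    exact a4.trans hcoup
  refine hfin.trans ?_
  apply exs_mono_p _ hp0pos.le hp0p hp1
  intro W W' hWW
  exact ind_mono (fun ⟨σ, hσ⟩ => ⟨σ, fun x => (hσ x).trans hWW⟩)

end Pool.Agent.Y240.KF
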