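import Pool.Agent.Y240.KF.Factor

set_option autoImplicit false
set_option linter.unusedSectionVars false

/-!
# Assembly
-/

namespace Pool.Agent.Y240.KF

open Finset Filter
open scoped Classical
open Pool.Agent.TH965 Pool.Agent.TH965.Emb Pool.Agent.TH965.Spread
open Pool.Agent.TH948.KK (ind ind_true ind_false ind_nonneg ind_le_one ind_mono ind_congr exs_congr)

/-- A partite clique factor contains `tK`. -/
lemma tK_of_factor (r k : ℕ) (W : Finset (Sym2 (Fin r × Fin k)))
    (h : ∃ σ : Fin r → Equiv.Perm (Fin k), ∀ x : Fin k, Ed r k (fun l => σ l x) ⊆ W) :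
    (tK k r).IsContained (SimpleGraph.fromEdgeSet (W : Set (Sym2 (Fin r × Fin k)))) := by
  obtain ⟨σ, hσ⟩ := h
  have hinj : Function.Injective (fun y : Fin k × Fin r => ((y.2, σ y.2 y.1) : Fin r × Fin k)) := by
    rintro ⟨x, l⟩ ⟨x', l'⟩ hxy
    simp only [Prod.mk.injEq] at hxy
    obtain ⟨h1, h2⟩ := hxy
    subst h1
    rw [(σ l).injective h2]
  refine ⟨⟨⟨fun y => (y.2, σ y.2 y.1), ?_⟩, hinj⟩⟩
  rintro ⟨x, l⟩ ⟨x', l'⟩ hxy
  obtain ⟨h1, h2⟩ := hxy
  simp only at h1 h2
  subst h1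
  rw [SimpleGraph.fromEdgeSet_adj]
  refine ⟨?_, ?_⟩
  · rw [Finset.mem_coe]
    apply hσ x
    unfold Ed
    rw [Finset.mem_image]
    refine ⟨s(l, l'), ?_, by rw [Sym2.map_mk]⟩
    rw [Finset.mem_filter]
    exact ⟨Finset.mem_univ _, fun h => h2 h⟩
  · intro h
    exact h2 (congrArg Prod.fst h)

/-- Fewer cliques are contained in more cliques. -/
lemma tK_mono (t k r : ℕ) (h : t ≤ k) : (tK t r).IsContained (tK k r) := by
  refine ⟨⟨⟨fun y => (Fin.castLE h y.1, y.2), ?_⟩, ?_⟩⟩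
  · rintro ⟨x, l⟩ ⟨x', l'⟩ hxy
    obtain ⟨h1, h2⟩ := hxy
    simp only at h1 h2
    subst h1
    exact ⟨rfl, h2⟩
  · rintro ⟨x, l⟩ ⟨x', l'⟩ hxy
    have h1 := congrArg Prod.fst hxy
    have h2 := congrArg Prod.snd hxy
    change Fin.castLE h x = Fin.castLE h x' at h1
    change l = l' at h2
    rw [Fin.castLE_injective h h1, h2]

lemma gv_mono_P (V : Type) [Fintype V] {p : ℝ} (hp0 : 0 ≤ p) (hp1 : p ≤ 1)
    {P Q : SimpleGraph V → Prop} (h : ∀ G, P G → Q G) : gv V p P ≤ gv V p Q := by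
  unfold gv
  apply exs_mono _ hp0 hp1
  intro W _
  exact ind_mono (h _)

lemma gv_le_one (V : Type) [Fintype V] {p : ℝ} (hp0 : 0 ≤ p) (hp1 : p ≤ 1)
    (P : SimpleGraph V → Prop) : gv V p P ≤ 1 := by
  unfold gv
  exact exs_le_one _ hp0 hp1 (fun W _ => ind_le_one _)

/-- Numerical facts. -/
lemma num_fac (r : ℕ) (hr : 2 ≤ r) (n : ℕ) (hn : 3 ≤ n) (p X : ℝ) (_hp : 0 ≤ p) (hX : 1 ≤ X)
    (h : X ≤ p * (n : ℝ) ^ ((2 : ℝ) / r) / (Real.log n) ^ ((1 : ℝ) / ((r.choose 2 : ℕ) : ℝ))) :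
    X * Real.log n ≤ p ^ (r.choose 2) * (n : ℝ) ^ (r - 1) ∧ X * (n : ℝ) ^ (-(2 : ℝ) / r) ≤ p := by
  have hn' : (3 : ℝ) ≤ n := by exact_mod_cast hn
  have hnpos : (0 : ℝ) < n := by linarith
  have hlog : 1 ≤ Real.log n := by
    rw [Real.le_log_iff_exp_le hnpos]
    linarith [Real.exp_one_lt_d9]
  have hlogpos : 0 < Real.log n := by linarith
  set D : ℕ := r.choose 2 with hD
  have hDpos : 0 < D := Nat.choose_pos hr
  have hD' : (D : ℝ) ≠ 0 := by exact_mod_cast hDpos.ne'
  have hr' : (r : ℝ) ≠ 0 := by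
    have : r ≠ 0 := by omega
    exact_mod_cast this
  set l : ℝ := (Real.log n) ^ ((1 : ℝ) / (D : ℝ)) with hl
  have hl1 : 1 ≤ l := Real.one_le_rpow hlog (by positivity)
  have hlpos : 0 < l := by linarith
  have hlD : l ^ D = Real.log n := by
    rw [hl, ← Real.rpow_natCast, ← Real.rpow_mul hlogpos.le, one_div, inv_mul_cancel₀ hD',
      Real.rpow_one]
  set N : ℝ := (n : ℝ) ^ ((2 : ℝ) / r) with hN
  have hNpos : 0 < N := Real.rpow_pos_of_pos hnpos _
  have hND : N ^ D = (n : ℝ) ^ (r - 1) := by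
    rw [hN, ← Real.rpow_natCast, ← Real.rpow_mul hnpos.le, ← Real.rpow_natCast]
    congr 1
    have h2 : (2 : ℝ) * D = r * ((r - 1 : ℕ) : ℝ) := by
      have := two_choose r
      exact_mod_cast this
    field_simp
    linarith
  rw [le_div_iff₀ hlpos] at h
  constructor
  · have h1 : (X * l) ^ D ≤ (p * N) ^ D := pow_le_pow_left₀ (by positivity) h D
    rw [mul_pow, mul_pow, hlD, hND] at h1
    refine le_trans ?_ h1
    apply mul_le_mul_of_nonneg_right _ hlogpos.le
    exact le_self_pow₀ hX hDpos.ne'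
  · have h1 : (n : ℝ) ^ (-(2 : ℝ) / r) = N⁻¹ := by
      rw [hN, ← Real.rpow_neg hnpos.le]
      congr 1
      ring
    rw [h1, ← div_eq_mul_inv, div_le_iff₀ hNpos]
    nlinarith

theorem main (hfac : StFactor) (hgv : StGv) (hmono : StMonoV) (htwo : StTwo) (hdec : StDecomp)
    (hrest : StRest) : StMain := by
  intro Δ H p hΔ hdeg hp htend
  set r : ℕ := Δ + 1 with hr
  have hr2 : 2 ≤ r := by omega
  have hrR : ((Δ : ℝ) + 1) = (r : ℝ) := by rw [hr]; push_cast; ring
  rw [hrR] at htend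
  obtain ⟨C, hC, hCfac⟩ := hfac r hr2
  -- it suffices to bound below
  have hupper : ∀ n, gnp n (p n) (fun G => (H n).IsContained G) ≤ 1 := by
    intro n
    rw [← hgv]
    exact gv_le_one _ (hp n).1 (hp n).2 _
  rw [tendsto_order]
  refine ⟨?_, fun a ha => Filter.Eventually.of_forall (fun n => (hupper n).trans_lt ha)⟩
  intro a ha
  set δ : ℝ := (1 - a) / 4 with hδ
  have hδpos : 0 < δ := by rw [hδ]; linarith
  obtain ⟨k0, hk0⟩ := hCfac δ hδpos
  obtain ⟨n0, hn0⟩ := hrest Δ hΔ δ hδpos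
  set X : ℝ := C * 2 ^ (r.choose 2) * (2 * r) ^ (r - 1) + 4 with hX
  have hX4 : 4 ≤ X := by
    rw [hX]
    have : 0 ≤ C * 2 ^ (r.choose 2) * (2 * r) ^ (r - 1) := by positivity
    linarith
  have hev := htend.eventually (eventually_ge_atTop X)
  filter_upwards [hev, eventually_ge_atTop 3, eventually_ge_atTop (2 * n0),
    eventually_ge_atTop (2 * r * (k0 + 1)), eventually_ge_atTop (2 * r)] with n hnX hn3 hnn0 hnk hnr
  have hp0 := (hp n).1
  have hp1 := (hp n).2
  obtain ⟨hA, hB⟩ := num_fac r hr2 n hn3 (p n) X hp0 (by linarith) hnX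
  set q : ℝ := p n / 2 with hq
  have hq0 : 0 ≤ q := by rw [hq]; linarith
  have hq1 : q ≤ 1 := by rw [hq]; linarith
  have hqq0 : 0 ≤ q + q - q * q := by nlinarith
  have hqq : q + q - q * q ≤ p n := by
    have : 0 ≤ q * q := mul_nonneg hq0 hq0
    have h2 : q + q = p n := by rw [hq]; ring
    linarith
  have hnR : (3 : ℝ) ≤ n := by exact_mod_cast hn3
  have hnpos : (0 : ℝ) < n := by linarith
  have hrpos : (0 : ℝ) < r := by
    have : 0 < r := by omega
    exact_mod_cast this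
  -- the condition for clique factors with at least `n / (2r)` parts
  have hcond : ∀ k : ℕ, n ≤ 2 * r * k → k ≤ n →
      C * Real.log k ≤ q ^ (r.choose 2) * (k : ℝ) ^ (r - 1) := by
    intro k hk hkn
    have hkpos : 0 < k := by
      rcases Nat.eq_zero_or_pos k with h | h
      · subst h; omega
      · exact h
    have hk' : (n : ℝ) ≤ 2 * r * k := by exact_mod_cast hk
    have h1 : Real.log k ≤ Real.log n :=
      Real.log_le_log (by exact_mod_cast hkpos) (by exact_mod_cast hkn)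
    have h2 : (n : ℝ) ^ (r - 1) ≤ (2 * r) ^ (r - 1) * (k : ℝ) ^ (r - 1) := by
      rw [← mul_pow]
      exact pow_le_pow_left₀ hnpos.le hk' _
    have hlogn : 0 ≤ Real.log n := Real.log_nonneg (by linarith)
    have h3 : (C * 2 ^ (r.choose 2) * (2 * r) ^ (r - 1)) * Real.log n
        ≤ p n ^ (r.choose 2) * ((2 * r) ^ (r - 1) * (k : ℝ) ^ (r - 1)) := by
      calc (C * 2 ^ (r.choose 2) * (2 * r) ^ (r - 1)) * Real.log n ≤ X * Real.log n := by
            apply mul_le_mul_of_nonneg_right _ hlogn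
            rw [hX]; linarith
        _ ≤ p n ^ (r.choose 2) * (n : ℝ) ^ (r - 1) := hA
        _ ≤ _ := mul_le_mul_of_nonneg_left h2 (by positivity)
    have h4 : (0 : ℝ) < 2 ^ (r.choose 2) * (2 * r) ^ (r - 1) := by positivity
    have h5 : C * Real.log n * (2 ^ (r.choose 2) * (2 * r) ^ (r - 1))
        ≤ (q ^ (r.choose 2) * (k : ℝ) ^ (r - 1)) * (2 ^ (r.choose 2) * (2 * r) ^ (r - 1)) := by
      have e1 : q ^ (r.choose 2) * 2 ^ (r.choose 2) = p n ^ (r.choose 2) := by
        rw [← mul_pow, hq]; congr 1; ring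
      calc _ = (C * 2 ^ (r.choose 2) * (2 * r) ^ (r - 1)) * Real.log n := by ring
        _ ≤ _ := h3
        _ = (q ^ (r.choose 2) * 2 ^ (r.choose 2)) * ((2 * r) ^ (r - 1) * (k : ℝ) ^ (r - 1)) := by
            rw [e1]
        _ = _ := by ring
    have h6 := le_of_mul_le_mul_right h5 h4
    exact (mul_le_mul_of_nonneg_left h1 hC.le).trans h6
  -- clique factors
  have hcl : ∀ k : ℕ, n ≤ 2 * r * k → k ≤ n →
      1 - δ ≤ gv (Fin r × Fin k) q (fun G => (tK k r).IsContained G) := by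
    intro k hk hkn
    have hkk : k0 ≤ k := by
      have h1 : 2 * r * (k0 + 1) ≤ 2 * r * k := hnk.trans hk
      have := Nat.le_of_mul_le_mul_left h1 (by omega)
      omega
    refine (hk0 k hkk q hq0 hq1 (hcond k hk hkn)).trans ?_
    unfold gv
    apply exs_mono _ hq0 hq1
    intro W _
    exact ind_mono (tK_of_factor r k W)
  -- the rest
  have hrs : ∀ n' m : ℕ, n0 ≤ n' → n ≤ 2 * n' → n' ≤ n → m ≤ n' → ∀ B : SimpleGraph (Fin m),
      (∀ v, B.degree v ≤ Δ) → B.CliqueFree (Δ + 1) →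
      1 - δ ≤ gv (Fin n') q (fun G => B.IsContained G) := by
    intro n' m h1 h2 h3 h4 B hB1 hB2
    rw [hgv]
    apply hn0 n' h1 m h4 B hB1 hB2 q hq0 hq1
    rw [hrR]
    have h2' : (n : ℝ) / 2 ≤ n' := by
      have : (n : ℝ) ≤ 2 * n' := by exact_mod_cast h2
      linarith
    have h5 : (n' : ℝ) ^ (-(2 : ℝ) / r) ≤ ((n : ℝ) / 2) ^ (-(2 : ℝ) / r) := by
      apply Real.rpow_le_rpow_of_nonpos (by linarith) h2'
      rw [neg_div]
      have : (0 : ℝ) ≤ 2 / r := by positivity
      linarith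
    have h6 : ((n : ℝ) / 2) ^ (-(2 : ℝ) / r) ≤ 2 * (n : ℝ) ^ (-(2 : ℝ) / r) := by
      rw [Real.div_rpow hnpos.le (by norm_num), div_eq_mul_inv, mul_comm]
      apply mul_le_mul_of_nonneg_right _ (Real.rpow_nonneg hnpos.le _)
      rw [← Real.rpow_neg (by norm_num)]
      have h7 : -(-(2 : ℝ) / r) ≤ 1 := by
        rw [neg_div, neg_neg, div_le_one hrpos]
        exact_mod_cast hr2
      calc (2 : ℝ) ^ (-(-(2 : ℝ) / r)) ≤ 2 ^ (1 : ℝ) :=
            Real.rpow_le_rpow_of_exponent_le (by norm_num) h7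
        _ = 2 := Real.rpow_one 2
    have h8 : 0 ≤ (n : ℝ) ^ (-(2 : ℝ) / r) := Real.rpow_nonneg hnpos.le _
    have h9 : 4 * (n : ℝ) ^ (-(2 : ℝ) / r) ≤ p n :=
      (mul_le_mul_of_nonneg_right hX4 h8).trans hB
    rw [hq]
    linarith
  obtain ⟨t, b, B, htb, hBdeg, hBcl, hcont⟩ := hdec Δ n (H n) hΔ (hdeg n)
  rw [← hr] at htb hcont
  have hcardt : Fintype.card (Fin t × Fin r) = r * t := by
    rw [Fintype.card_prod, Fintype.card_fin, Fintype.card_fin, mul_comm]
  have hsum : 1 - δ - δ ≤ gv (Fin n) (q + q - q * q)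
      (fun G => (tK t r ⊕g B).IsContained G) := by
    by_cases hb : 2 * b ≤ n
    · -- many cliques
      have h1 : n ≤ 2 * r * t := by nlinarith
      have h2 : t ≤ n := by nlinarith
      have h3 := hcl t h1 h2
      have h4 := hmono (Fin r × Fin t) (Fin t × Fin r) (Fin t × Fin r) (tK t r)
        (by simp [mul_comm]) q hq0 hq1
      have h5 := hrs n b (by omega) (by omega) le_rfl (by omega) B hBdeg hBcl
      have h6 := htwo (Fin b) (Fin t × Fin r) (Fin n) B (tK t r)
        (by rw [hcardt, Fintype.card_fin, Fintype.card_fin]; omega) q q δ δ hq0 hq1 hq0 hq1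
        hδpos.le hδpos.le h5 (h3.trans h4)
      refine h6.trans ?_
      apply gv_mono_P _ hqq0 (hqq.trans hp1)
      intro G hG
      exact SimpleGraph.IsContained.trans ⟨(SimpleGraph.Iso.sumComm).toCopy⟩ hG
    · -- few cliques
      push Not at hb
      set k : ℕ := n / r with hk
      have hrk : r * k ≤ n := Nat.mul_div_le n r
      have hrk2 : n < r * k + r := by
        have := Nat.lt_div_mul_add (a := n) (b := r) (by omega)
        rw [hk]
        nlinarith
      have h1 : n ≤ 2 * r * k := by nlinarith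
      have h2 : k ≤ n := Nat.div_le_self n r
      have htk : t ≤ k := by
        rw [hk, Nat.le_div_iff_mul_le (by omega)]
        nlinarith
      have h3 := hcl k h1 h2
      have h4 := hmono (Fin r × Fin k) (Fin n) (Fin k × Fin r) (tK k r)
        (by rw [Fintype.card_prod, Fintype.card_fin, Fintype.card_fin, Fintype.card_fin]
            exact hrk) q hq0 hq1
      have h5 : gv (Fin n) q (fun G => (tK k r).IsContained G)
          ≤ gv (Fin n) q (fun G => (tK t r).IsContained G) :=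
        gv_mono_P _ hq0 hq1 (fun G hG => (tK_mono t k r htk).trans hG)
      have h6 := hrs b b (by omega) (by omega) (by omega) le_rfl B hBdeg hBcl
      exact htwo (Fin t × Fin r) (Fin b) (Fin n) (tK t r) B
        (by rw [hcardt, Fintype.card_fin, Fintype.card_fin]; omega) q q δ δ hq0 hq1 hq0 hq1
        hδpos.le hδpos.le ((h3.trans h4).trans h5) h6
  have hfin : gv (Fin n) (q + q - q * q) (fun G => (tK t r ⊕g B).IsContained G)
      ≤ gnp n (p n) (fun G => (H n).IsContained G) := by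
    refine (gv_mono_P _ hqq0 (hqq.trans hp1) (Q := fun G => (H n).IsContained G)
      (fun G hG => hcont.trans hG)).trans ?_
    rw [hgv]
    apply gnp_mono n hqq0 hqq hp1
    intro G G' hGG' hH
    exact hH.trans_le hGG'
  have h7 := hsum.trans hfin
  have h8 : a < 1 - δ - δ := by rw [hδ]; linarith
  linarith

end Pool.Agent.Y240.KF
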