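import Pool.Agent.Y240.KF.Stm

set_option autoImplicit false
set_option linter.unusedSectionVars false

/-!
# Conditioning and Harris' inequality for `exs`
-/

namespace Pool.Agent.Y240.KF

open Finset
open scoped Classical
open Pool.Agent.TH965 Pool.Agent.TH965.Emb Pool.Agent.TH965.Spread
open Pool.Agent.TH948.KK (ind ind_true ind_false ind_nonneg ind_le_one ind_mono ind_congr exs_congr)

section

variable {X : Type*} [DecidableEq X]

lemma exs_nonneg (s : Finset X) {p : ℝ} (hp0 : 0 ≤ p) (hp1 : p ≤ 1) {f : Finset X → ℝ}
    (h : ∀ W, W ⊆ s → 0 ≤ f W) : 0 ≤ exs s p f := by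
  have := exs_mono s hp0 hp1 (f := fun _ => (0 : ℝ)) (g := f) h
  rwa [exs_const] at this

lemma exs_le_one (s : Finset X) {p : ℝ} (hp0 : 0 ≤ p) (hp1 : p ≤ 1) {f : Finset X → ℝ}
    (h : ∀ W, W ⊆ s → f W ≤ 1) : exs s p f ≤ 1 := by
  have := exs_mono s hp0 hp1 (f := f) (g := fun _ => (1 : ℝ)) h
  rwa [exs_const] at this

lemma exs_sub (s : Finset X) (p : ℝ) (f g : Finset X → ℝ) :
    exs s p (fun W => f W - g W) = exs s p f - exs s p g := by
  unfold exs
  rw [← Finset.sum_sub_distrib]
  apply Finset.sum_congr rfl
  intro W _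
  ring

/-- Conditioning on the presence of all points of `U`. -/
lemma exs_cond (s : Finset X) (p : ℝ) (U : Finset X) : ∀ (_ : U ⊆ s) (f : Finset X → ℝ),
    exs s p (fun W => ind (U ⊆ W) * f W) = p ^ U.card * exs s p (fun W => f (W ∪ U)) := by
  induction U using Finset.induction_on with
  | empty =>
    intro _ f
    rw [Finset.card_empty, pow_zero, one_mul]
    apply exs_congr
    intro W _
    rw [ind_true (Finset.empty_subset W), one_mul, Finset.union_empty]
  | insert x U hx ih =>
    intro hU f
    have hxs : x ∈ s := hU (Finset.mem_insert_self x U)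
    have hUs : U ⊆ s := fun y hy => hU (Finset.mem_insert_of_mem hy)
    have hs : s = insert x (s.erase x) := (Finset.insert_erase hxs).symm
    have hxe : x ∉ s.erase x := Finset.notMem_erase x s
    -- remove the condition on `x`
    have h1 : exs s p (fun W => ind (insert x U ⊆ W) * f W)
        = p * exs s p (fun W => ind (U ⊆ W) * f (insert x W)) := by
      have e1 : exs s p (fun W => ind (insert x U ⊆ W) * f W)
          = (1 - p) * exs (s.erase x) p (fun W => ind (insert x U ⊆ W) * f W)
          + p * exs (s.erase x) p (fun W => ind (insert x U ⊆ insert x W) * f (insert x W)) := by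
        conv_lhs => rw [hs]
        exact exs_insert (s.erase x) x hxe p _
      have e2 : exs s p (fun W => ind (U ⊆ W) * f (insert x W))
          = (1 - p) * exs (s.erase x) p (fun W => ind (U ⊆ W) * f (insert x W))
          + p * exs (s.erase x) p (fun W => ind (U ⊆ insert x W) * f (insert x (insert x W))) := by
        conv_lhs => rw [hs]
        exact exs_insert (s.erase x) x hxe p _
      have e3 : exs (s.erase x) p (fun W => ind (insert x U ⊆ W) * f W) = 0 := by
        refine Eq.trans (exs_congr _ _ ?_) (exs_const (s.erase x) p 0)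
        intro W hW
        rw [ind_false, zero_mul]
        intro h
        exact hxe (hW (h (Finset.mem_insert_self x U)))
      have e4 : ∀ W, W ⊆ s.erase x → ind (insert x U ⊆ insert x W) * f (insert x W)
          = ind (U ⊆ W) * f (insert x W) := by
        intro W _
        rw [ind_congr (Finset.insert_subset_insert_iff hx)]
      have e5 : ∀ W, W ⊆ s.erase x → ind (U ⊆ insert x W) * f (insert x (insert x W))
          = ind (U ⊆ W) * f (insert x W) := by
        intro W _
        rw [ind_congr (Finset.subset_insert_iff_of_notMem hx), Finset.insert_idem]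
      rw [e1, e2, e3, exs_congr _ _ e4, exs_congr _ _ e5]
      ring
    rw [h1, ih hUs (fun W => f (insert x W)), Finset.card_insert_of_notMem hx, pow_succ]
    have h2 : exs s p (fun W => f (insert x (W ∪ U))) = exs s p (fun W => f (W ∪ insert x U)) := by
      apply exs_congr
      intro W _
      rw [Finset.union_insert]
    rw [h2]
    ring

/-- **Harris' inequality** for two decreasing functions. -/
lemma exs_harris {p : ℝ} (hp0 : 0 ≤ p) (hp1 : p ≤ 1) : ∀ (s : Finset X) (f g : Finset X → ℝ),
    (∀ W W', W ⊆ W' → W' ⊆ s → f W' ≤ f W) → (∀ W W', W ⊆ W' → W' ⊆ s → g W' ≤ g W) →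
    exs s p f * exs s p g ≤ exs s p (fun W => f W * g W) := by
  intro s
  induction s using Finset.induction_on with
  | empty =>
    intro f g _ _
    simp only [exs_empty]
    exact le_rfl
  | insert x s hx ih =>
    intro f g hf hg
    rw [exs_insert s x hx, exs_insert s x hx, exs_insert s x hx]
    have hs : s ⊆ insert x s := Finset.subset_insert x s
    have h0 := ih f g (fun W W' h h' => hf W W' h (h'.trans hs))
      (fun W W' h h' => hg W W' h (h'.trans hs))
    have h1 := ih (fun W => f (insert x W)) (fun W => g (insert x W))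
      (fun W W' h h' => hf _ _ (Finset.insert_subset_insert x h) (Finset.insert_subset_insert x h'))
      (fun W W' h h' => hg _ _ (Finset.insert_subset_insert x h) (Finset.insert_subset_insert x h'))
    have ha : exs s p (fun W => f (insert x W)) ≤ exs s p f := by
      apply exs_mono s hp0 hp1
      intro W hW
      exact hf _ _ (Finset.subset_insert x W) (Finset.insert_subset_insert x hW)
    have hb : exs s p (fun W => g (insert x W)) ≤ exs s p g := by
      apply exs_mono s hp0 hp1
      intro W hW
      exact hg _ _ (Finset.subset_insert x W) (Finset.insert_subset_insert x hW)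
    set a := exs s p f
    set b := exs s p g
    set a' := exs s p (fun W => f (insert x W))
    set b' := exs s p (fun W => g (insert x W))
    have hq : 0 ≤ 1 - p := by linarith
    have h2 : 0 ≤ p * (1 - p) * ((a - a') * (b - b')) := by
      apply mul_nonneg (mul_nonneg hp0 hq)
      exact mul_nonneg (by linarith) (by linarith)
    have h3 := mul_le_mul_of_nonneg_left h0 hq
    have h4 := mul_le_mul_of_nonneg_left h1 hp0
    nlinarith

/-- Harris' inequality for a product. -/
lemma exs_harris_prod {J : Type*} [DecidableEq J] {p : ℝ} (hp0 : 0 ≤ p) (hp1 : p ≤ 1) (s : Finset X)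
    (f : Finset X → ℝ) (hf0 : ∀ W, 0 ≤ f W) (hf : ∀ W W', W ⊆ W' → f W' ≤ f W)
    (N : Finset J) (h : J → Finset X → ℝ) (h0 : ∀ j ∈ N, ∀ W, 0 ≤ h j W)
    (hh : ∀ j ∈ N, ∀ W W', W ⊆ W' → h j W' ≤ h j W) :
    exs s p f * ∏ j ∈ N, exs s p (h j) ≤ exs s p (fun W => f W * ∏ j ∈ N, h j W) := by
  induction N using Finset.induction_on with
  | empty => simp
  | insert j N hj ih =>
    have ih' := ih (fun i hi => h0 i (Finset.mem_insert_of_mem hi))
      (fun i hi => hh i (Finset.mem_insert_of_mem hi))
    rw [Finset.prod_insert hj]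
    have hnn : 0 ≤ exs s p (h j) :=
      exs_nonneg s hp0 hp1 (fun W _ => h0 j (Finset.mem_insert_self j N) W)
    have hP0 : ∀ W, 0 ≤ ∏ i ∈ N, h i W := fun W =>
      Finset.prod_nonneg (fun i hi => h0 i (Finset.mem_insert_of_mem hi) W)
    have hPa : ∀ W W', W ⊆ W' → ∏ i ∈ N, h i W' ≤ ∏ i ∈ N, h i W := by
      intro W W' hWW
      apply Finset.prod_le_prod
      · intro i hi; exact h0 i (Finset.mem_insert_of_mem hi) W'
      · intro i hi; exact hh i (Finset.mem_insert_of_mem hi) W W' hWW
    have h1 := exs_harris hp0 hp1 s (fun W => f W * ∏ i ∈ N, h i W) (h j)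
      (fun W W' hWW _ => mul_le_mul (hf W W' hWW) (hPa W W' hWW) (hP0 W') (hf0 W))
      (fun W W' hWW _ => hh j (Finset.mem_insert_self j N) W W' hWW)
    calc exs s p f * (exs s p (h j) * ∏ i ∈ N, exs s p (h i))
        = (exs s p f * ∏ i ∈ N, exs s p (h i)) * exs s p (h j) := by ring
      _ ≤ exs s p (fun W => f W * ∏ i ∈ N, h i W) * exs s p (h j) :=
          mul_le_mul_of_nonneg_right ih' hnn
      _ ≤ exs s p (fun W => (f W * ∏ i ∈ N, h i W) * h j W) := h1
      _ = exs s p (fun W => f W * ∏ i ∈ insert j N, h i W) := by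
          apply exs_congr
          intro W _
          rw [Finset.prod_insert hj]
          ring

/-- The probability that all points of `U` are present. -/
lemma exs_subset (s : Finset X) (p : ℝ) (U : Finset X) (hU : U ⊆ s) :
    exs s p (fun W => ind (U ⊆ W)) = p ^ U.card := by
  have h := exs_cond s p U hU (fun _ => 1)
  rw [exs_const, mul_one] at h
  rw [← h]
  apply exs_congr
  intro W _
  rw [mul_one]

end

end Pool.Agent.Y240.KF
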